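import Pool.Agent.Helper50.Sparse.UniformF

/-!
# Short colines: all coatoms have few points
-/

set_option autoImplicit false
set_option linter.unusedSectionVars false

namespace Pool.Agent.Helper50.SC

open Pool.Agent.Helper28.BPack Pool.Agent.Helper50.Sparse Finset

variable {L : Type} [Lattice L] [BoundedOrder L] [Fintype L] [IsUpperModularLattice L]

/-- the exponent -/
theorem exp_le {R i k s : ℕ} (hs : s = (R + 1) / 2) (hik : i < k) (hikR : i + k ≤ R) :
    k ≤ s * (k - i) := by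
  obtain ⟨d, hd⟩ : ∃ d, k = i + d := ⟨k - i, by omega⟩
  have hd1 : 1 ≤ d := by omega
  have hkd : k - i = d := by omega
  rw [hkd]
  by_cases h1 : d = 1
  · subst h1
    omega
  · have hd2 : 2 ≤ d := by omega
    have hr2 : 2 ≤ R := by omega
    have h2 : R ≤ 2 * s := by omega
    have h3 : R * d ≤ 2 * s * d := Nat.mul_le_mul_right d h2
    obtain ⟨d', rfl⟩ : ∃ d', d = d' + 2 := ⟨d - 2, by omega⟩
    obtain ⟨r', hr'⟩ : ∃ r', R = r' + 2 := ⟨R - 2, by omega⟩
    have h4 : R + (d' + 2) ≤ R * (d' + 2) := by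
      rw [hr']
      nlinarith [Nat.zero_le (r' * d')]
    have h5 : 2 * (s * (d' + 2)) = 2 * s * (d' + 2) := by ring
    omega

theorem point_below (hat : ∀ x : L, ∃ s : Finset L, (∀ a ∈ s, IsAtom a) ∧ s.sup id = x)
    {f : L} (G : L) (hfG : f ≤ G) (hG : G ≠ f) : ∃ j : {u : L // f ⋖ u}, j.1 ≤ G := by
  obtain ⟨b, hb1, hb2, hb3⟩ := exists_atom hat (x := f) (y := G)
    (fun h => hG (le_antisymm h hfG))
  exact ⟨⟨f ⊔ b, covBy_sup_atom hb1 hb3⟩, sup_le hfG hb2⟩

open Classical in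
/-- **All coatoms have few points.** -/
theorem hasPack_coatoms
    (hat : ∀ x : L, ∃ s : Finset L, (∀ a ∈ s, IsAtom a) ∧ s.sup id = x) {f : L} {R : ℕ}
    (hR : rk (⊤ : L) = rk f + R) (hR4 : 4 ≤ R) (t T : ℕ)
    (ht : ∀ x : L, f ≤ x → rk x + 2 ≤ rk (⊤ : L) →
      (univ.filter (fun j : {u : L // f ⋖ u} => j.1 ≤ x)).card ≤ t)
    (hT : ∀ x : L, f ≤ x → x ≠ ⊤ →
      (univ.filter (fun j : {u : L // f ⋖ u} => j.1 ≤ x)).card ≤ T)
    (htT : t ^ ((R + 1) / 2) ≤ T)
    (hn : T + 3 * 4 ^ R * T ^ 2 ≤ Fintype.card {u : L // f ⋖ u}) : HasPack f := by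
  set n := Fintype.card {u : L // f ⋖ u} with hnn
  have hbt : f ≠ ⊤ := by
    intro h
    rw [h] at hR
    omega
  have hrep : ∀ j : {u : L // f ⋖ u}, ∃ b, IsAtom b ∧ f ⊔ b = j.1 := fun j =>
    exists_atom_cov hat j.2
  choose c hc hcj using hrep
  have hcle : ∀ (x : L), f ≤ x → ∀ j : {u : L // f ⋖ u}, c j ≤ x ↔ j.1 ≤ x := by
    intro x hfx j
    rw [← hcj j]
    constructor
    · intro h
      exact sup_le hfx h
    · intro h
      exact le_sup_right.trans h
  obtain ⟨s, hs⟩ : ∃ s, s = (R + 1) / 2 := ⟨_, rfl⟩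
  rw [← hs] at htT
  -- T is positive
  have hT1 : 1 ≤ T := by
    obtain ⟨j, _⟩ := point_below hat (⊤ : L) le_top (fun h => hbt h.symm)
    have h1 : j.1 ≠ ⊤ := by
      intro h
      have h2 := rk_covBy j.2
      rw [h] at h2
      omega
    refine le_trans ?_ (hT j.1 j.2.le h1)
    apply Finset.card_pos.mpr
    exact ⟨j, by rw [Finset.mem_filter]; exact ⟨Finset.mem_univ _, le_rfl⟩⟩
  have h4R : R ≤ 4 ^ R := (Nat.lt_pow_self (by norm_num)).le
  have hTT : T ≤ T ^ 2 := Nat.le_self_pow (by norm_num) T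
  have hTn : T ≤ n := by
    have := Nat.le_add_right T (3 * 4 ^ R * T ^ 2)
    omega
  have hD : 3 * 4 ^ R * T ^ 2 ≤ n - T := by omega
  have hD0 : 0 < n - T := by
    have h1 : 0 < 3 * 4 ^ R * T ^ 2 := by positivity
    omega
  refine hasPack_sparse (f := f) (c := c) hc (R := R) hR (n - T) hD0 ?_ ?_ ?_
  · intro x hfx hx
    have h1 := hT x hfx hx
    have h2 := Finset.card_filter_add_card_filter_not (s := (univ : Finset {u : L // f ⋖ u}))
      (fun j : {u : L // f ⋖ u} => j.1 ≤ x)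
    rw [Finset.card_univ, ← hnn] at h2
    have h3 : (univ.filter (fun j : {u : L // f ⋖ u} => ¬ c j ≤ x)) =
        (univ.filter (fun j : {u : L // f ⋖ u} => ¬ j.1 ≤ x)) := by
      apply Finset.filter_congr
      intro j _
      rw [hcle x hfx j]
    rw [h3]
    omega
  · have h2 : 3 * R * T ≤ 3 * 4 ^ R * T ^ 2 := by
      apply Nat.mul_le_mul _ hTT
      exact Nat.mul_le_mul_left 3 h4R
    have h3 : (3 * R + 1) * T ≤ n := by
      have h5 : (3 * R + 1) * T = 3 * R * T + T := by ring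
      omega
    have h4 : (3 * R + 1) * (n - T) = (3 * R + 1) * n - (3 * R + 1) * T := Nat.mul_sub _ _ _
    have h6 : (3 * R + 1) * n = 3 * R * n + n := by ring
    rw [h4, h6, ← hnn]
    omega
  · intro G i k hfG hk hik hkr hik2
    have hGt : G ≠ ⊤ := by
      intro h
      rw [h] at hk
      omega
    set g := (univ.filter (fun j : {u : L // f ⋖ u} => j.1 ≤ G)).card with hg
    have hgc : (univ.filter (fun j : {u : L // f ⋖ u} => c j ≤ G)).card = g := by
      rw [hg]
      congr 1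
      apply Finset.filter_congr
      intro j _
      rw [hcle G hfG j]
    have hgT : g ≤ T := hT G hfG hGt
    have hg1 : 1 ≤ g := by
      obtain ⟨j, hj⟩ := point_below hat G hfG (fun h => by
        rw [h] at hk
        omega)
      apply Finset.card_pos.mpr
      exact ⟨j, by rw [Finset.mem_filter]; exact ⟨Finset.mem_univ _, hj⟩⟩
    have hN := card_rankF_le hat f G i
    rw [← hg] at hN
    have hksd := exp_le hs hik hik2
    obtain ⟨d, hd⟩ : ∃ d, k = i + d := ⟨k - i, by omega⟩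
    have hd1 : 1 ≤ d := by omega
    have hkd : k - i = d := by omega
    rw [hkd] at hksd ⊢
    rw [hgc]
    have hmain : g ^ k ≤ (T ^ 2) ^ d := by
      by_cases h1 : k + 2 ≤ R
      · have hgt : g ≤ t := ht G hfG (by omega)
        have ht1 : 1 ≤ t := hg1.trans hgt
        calc g ^ k ≤ t ^ k := Nat.pow_le_pow_left hgt k
          _ ≤ t ^ (s * d) := Nat.pow_le_pow_right ht1 hksd
          _ = (t ^ s) ^ d := pow_mul t s d
          _ ≤ (T ^ 2) ^ d := Nat.pow_le_pow_left (htT.trans hTT) d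
      · calc g ^ k ≤ T ^ k := Nat.pow_le_pow_left hgT k
          _ ≤ T ^ (2 * d) := Nat.pow_le_pow_right hT1 (by omega)
          _ = (T ^ 2) ^ d := pow_mul T 2 d
    calc 3 * 4 ^ R * (univ.filter (fun F : L => f ≤ F ∧ F < G ∧ rk F = rk f + i)).card * g ^ d
        ≤ 3 * 4 ^ R * g ^ i * g ^ d := by
          apply Nat.mul_le_mul_right
          exact Nat.mul_le_mul_left _ hN
      _ = 3 * 4 ^ R * g ^ k := by rw [hd, pow_add, mul_assoc]
      _ ≤ 3 * 4 ^ R * (T ^ 2) ^ d := Nat.mul_le_mul_left _ hmain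
      _ ≤ (3 * 4 ^ R) ^ d * (T ^ 2) ^ d := by
          apply Nat.mul_le_mul_right
          exact Nat.le_self_pow (by omega) _
      _ = (3 * 4 ^ R * T ^ 2) ^ d := by rw [← mul_pow]
      _ ≤ (n - T) ^ d := Nat.pow_le_pow_left hD d

end Pool.Agent.Helper50.SC
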