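import Pool.Agent.Helper38.CT2.Avoid

/-!
# Short colines: the boxes

`Q` is a large hyperplane, `p0` an atom off `Q`, and `c` a family of atoms below `Q`.
-/

set_option autoImplicit false
set_option linter.unusedSectionVars false

namespace Pool.Agent.Helper50.SC

open Pool.Agent.Helper28.BPack Pool.Agent.Helper50.Sparse Finset

variable {L : Type} [Lattice L] [BoundedOrder L] [Finite L] [IsUpperModularLattice L]
variable {ι : Type} [Fintype ι]

open Classical in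
/-- the number of random atoms over `F` -/
noncomputable def ln (Q F : L) : ℕ :=
  if F ≤ Q ∧ rk F = 1 then rk (⊤ : L) - 3 else rk (⊤ : L) - 2 * rk F

open Classical in
/-- the base of the random atoms over `F` -/
noncomputable def bs (Q p0 F : L) : L := if F ≤ Q ∧ rk F = 1 then F ⊔ p0 else F

open Classical in
/-- the random atoms over `F` -/
noncomputable def seqs (c : ι → L) (Q p0 F : L) : Finset (Fin (ln Q F) → ι) :=
  (good c (ln Q F) (bs Q p0 F)).filter (fun a => ∀ j, ¬ c (a j) ≤ F ⊔ p0)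

open Classical in
/-- the box -/
noncomputable def box (c : ι → L) (Q p0 F : L) (a : Fin (ln Q F) → ι) : Pc L :=
  if F ≤ Q ∧ rk F = 1 then
    ⟨F, ln Q F + 1, (Fin.cons p0 (fun j => c (a j)) : Fin (ln Q F + 1) → L)⟩
  else ⟨F, ln Q F, fun j => c (a j)⟩

/-- the resources of a box -/
def Hit (c : ι → L) (Q p0 F : L) (a : Fin (ln Q F) → ι) (G : L) : Prop :=
  ¬ (rk G = 2 ∧ p0 ≤ G) ∧ ∃ B, B.Nonempty ∧ (box c Q p0 F a).val B = G

theorem ln_pos {Q F : L} (h : F ≤ Q ∧ rk F = 1) : ln Q F = rk (⊤ : L) - 3 := if_pos h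

theorem ln_neg {Q F : L} (h : ¬ (F ≤ Q ∧ rk F = 1)) : ln Q F = rk (⊤ : L) - 2 * rk F := if_neg h

theorem bs_pos {Q p0 F : L} (h : F ≤ Q ∧ rk F = 1) : bs Q p0 F = F ⊔ p0 := if_pos h

theorem bs_neg {Q p0 F : L} (h : ¬ (F ≤ Q ∧ rk F = 1)) : bs Q p0 F = F := if_neg h

theorem box_pos {c : ι → L} {Q p0 F : L} (h : F ≤ Q ∧ rk F = 1) (a : Fin (ln Q F) → ι) :
    box c Q p0 F a = ⟨F, ln Q F + 1, (Fin.cons p0 (fun j => c (a j)) : Fin (ln Q F + 1) → L)⟩ :=
  if_pos h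

theorem box_neg {c : ι → L} {Q p0 F : L} (h : ¬ (F ≤ Q ∧ rk F = 1)) (a : Fin (ln Q F) → ι) :
    box c Q p0 F a = ⟨F, ln Q F, fun j => c (a j)⟩ := if_neg h

theorem box_x (c : ι → L) (Q p0 F : L) (a : Fin (ln Q F) → ι) : (box c Q p0 F a).x = F := by
  by_cases h : F ≤ Q ∧ rk F = 1
  · rw [box_pos h]
  · rw [box_neg h]

theorem mem_seqs {c : ι → L} {Q p0 F : L} {a : Fin (ln Q F) → ι} :
    a ∈ seqs c Q p0 F ↔ rk (jn c (bs Q p0 F) a) = rk (bs Q p0 F) + ln Q F ∧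
      ∀ j, ¬ c (a j) ≤ F ⊔ p0 := by
  classical
  unfold seqs
  rw [Finset.mem_filter, mem_good]

/-- the length of the box -/
theorem box_n (c : ι → L) {Q p0 F : L} (hr : 4 ≤ rk (⊤ : L)) (a : Fin (ln Q F) → ι) :
    (box c Q p0 F a).n = rk (⊤ : L) - 2 * rk F := by
  by_cases h : F ≤ Q ∧ rk F = 1
  · rw [box_pos h]
    change ln Q F + 1 = _
    rw [ln_pos h, h.2]
    omega
  · rw [box_neg h]
    exact ln_neg h

open Classical in
/-- there are many boxes -/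
theorem card_seqs (c : ι → L) (hc : ∀ j, IsAtom (c j)) {Q p0 : L} (hp0 : IsAtom p0)
    (hpQ : ¬ p0 ≤ Q) (hr : 4 ≤ rk (⊤ : L)) (D : ℕ)
    (hD : ∀ x w : L, rk x + 2 ≤ rk (⊤ : L) → rk w + 2 ≤ rk (⊤ : L) →
      D ≤ (univ.filter (fun j : ι => ¬ c j ≤ x ∧ ¬ c j ≤ w)).card)
    (F : L) (hF0 : F ≠ ⊥) (hF : 2 * rk F < rk (⊤ : L)) :
    D ^ ln Q F ≤ (seqs c Q p0 F).card := by
  have hF1 : 0 < rk F := by
    have := rk_lt (bot_lt_iff_ne_bot.mpr hF0)
    rwa [rk_bot] at this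
  have hw : rk (F ⊔ p0) ≤ rk F + 1 := by
    by_cases h : p0 ≤ F
    · rw [sup_eq_left.mpr h]
      omega
    · rw [rk_sup_atom hp0 h]
  have h1 := Pool.Agent.Helper38.CT2.card_good_avoid c hc D (rk (⊤ : L) - 2) (F ⊔ p0) (by
    intro x hx
    exact hD x (F ⊔ p0) (by omega) (by omega)) (ln Q F) (bs Q p0 F) (by
    by_cases h : F ≤ Q ∧ rk F = 1
    · rw [ln_pos h, bs_pos h]
      have h2 : ¬ p0 ≤ F := fun h3 => hpQ (h3.trans h.1)
      rw [rk_sup_atom hp0 h2, h.2]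
      omega
    · rw [ln_neg h, bs_neg h]
      omega)
  unfold seqs
  convert h1 using 3

end Pool.Agent.Helper50.SC
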