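import Pool.Agent.Helper50.Sparse.Count

/-!
# Short colines: the share of an element
-/

set_option autoImplicit false
set_option linter.unusedSectionVars false

namespace Pool.Agent.Helper50.SC

open Pool.Agent.Helper28.BPack Pool.Agent.Helper50.Sparse Finset

variable {L : Type} [Lattice L] [BoundedOrder L] [Fintype L] [IsUpperModularLattice L]
variable {ι : Type} [Fintype ι]

open Classical in
/-- the number of independent sequences over `G` some part of which spans `q`, when few of the
atoms are below `q` -/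
theorem share_le {c : ι → L} (hc : ∀ j, IsAtom (c j)) {m : ℕ} {G q : L} {t D e : ℕ}
    (hg : (univ.filter (fun j : ι => c j ≤ q)).card ≤ t) (htD : t ≤ D) (hD : 0 < D)
    (hn : Fintype.card ι ≤ 2 * D) (he : rk G + e ≤ rk q) :
    (((good c m G).filter (fun a => ∃ S : Finset (Fin m), S.Nonempty ∧
      G ⊔ S.sup (fun j => c (a j)) = q)).card : ℝ) ≤
      4 ^ m * ((t : ℝ) / D) ^ e * (D : ℝ) ^ m := by
  have hDr : (0 : ℝ) < D := by exact_mod_cast hD
  have htr : (t : ℝ) ≤ D := by exact_mod_cast htD
  have h0 := card_hit c hc m G q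
  obtain ⟨d, hd⟩ : ∃ d, d = rk q - rk G := ⟨_, rfl⟩
  rw [← hd] at h0
  have hed : e ≤ d := by omega
  have h1 : (((good c m G).filter (fun a => ∃ S : Finset (Fin m), S.Nonempty ∧
      G ⊔ S.sup (fun j => c (a j)) = q)).card : ℝ) ≤
      (m.choose d : ℝ) * (((univ.filter (fun j : ι => c j ≤ q)).card : ℝ) ^ d *
        (Fintype.card ι : ℝ) ^ (m - d)) := by
    exact_mod_cast h0
  refine h1.trans ?_
  by_cases hdm : m < d
  · rw [Nat.choose_eq_zero_of_lt hdm]
    simp only [Nat.cast_zero, zero_mul]
    positivity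
  · have hdm' : d ≤ m := by omega
    have b1 : (m.choose d : ℝ) ≤ 2 ^ m := by
      exact_mod_cast Nat.choose_le_two_pow m d
    have b2 : ((univ.filter (fun j : ι => c j ≤ q)).card : ℝ) ^ d ≤ (t : ℝ) ^ d := by
      apply pow_le_pow_left₀ (by positivity)
      exact_mod_cast hg
    have b3 : (Fintype.card ι : ℝ) ^ (m - d) ≤ 2 ^ m * (D : ℝ) ^ (m - d) := by
      have e1 : (Fintype.card ι : ℝ) ^ (m - d) ≤ (2 * (D : ℝ)) ^ (m - d) := by
        apply pow_le_pow_left₀ (by positivity)
        exact_mod_cast hn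
      rw [mul_pow] at e1
      refine e1.trans ?_
      apply mul_le_mul_of_nonneg_right _ (by positivity)
      exact pow_le_pow_right₀ (by norm_num) (by omega)
    have b4 : ((t : ℝ) / D) ^ d ≤ ((t : ℝ) / D) ^ e := by
      apply pow_le_pow_of_le_one (by positivity) _ hed
      rw [div_le_one hDr]
      exact htr
    have e2 : (D : ℝ) ^ m = (D : ℝ) ^ d * (D : ℝ) ^ (m - d) := by
      rw [← pow_add]
      congr 1
      omega
    have e3 : (4 : ℝ) ^ m = 2 ^ m * 2 ^ m := by
      rw [← mul_pow]
      norm_num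
    calc (m.choose d : ℝ) * (((univ.filter (fun j : ι => c j ≤ q)).card : ℝ) ^ d *
        (Fintype.card ι : ℝ) ^ (m - d))
        ≤ 2 ^ m * ((t : ℝ) ^ d * (2 ^ m * (D : ℝ) ^ (m - d))) := by
          apply mul_le_mul b1 _ (by positivity) (by positivity)
          exact mul_le_mul b2 b3 (by positivity) (by positivity)
      _ = 4 ^ m * ((t : ℝ) / D) ^ d * (D : ℝ) ^ m := by
          rw [e2, e3, div_pow]
          field_simp
      _ ≤ 4 ^ m * ((t : ℝ) / D) ^ e * (D : ℝ) ^ m := by
          apply mul_le_mul_of_nonneg_right _ (by positivity)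
          exact mul_le_mul_of_nonneg_left b4 (by positivity)

end Pool.Agent.Helper50.SC
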