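import Pool.Agent.Helper50.SC.CaseB
import Pool.Agent.Helper28.TW.Lift
import Pool.Agent.Helper50.TW.Lift

/-!
# Short colines: reduction to a large hyperplane, polynomial bounds
-/

set_option autoImplicit false
set_option linter.unusedSectionVars false

namespace Pool.Agent.Helper50.SC

open Pool.Agent.Helper28.BPack Pool.Agent.Helper50.Sparse Pool.Agent.Helper19.TW Finset

theorem num3 {r t s : ℕ} (hr : 4 ≤ r) (ht : 1 ≤ t) (hs : s = (r + 1) / 2) :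
    8 ^ r * r * t ^ s + (2 ^ r + 1) * t ≤ 16 ^ r * t ^ s := by
  have h1 : t ≤ t ^ s := Nat.le_self_pow (by omega) t
  have h3 : r + 1 ≤ 2 ^ r := Nat.lt_two_pow_self
  have h4 : 2 ^ r + 1 ≤ 8 ^ r := by
    have h5 : (2 : ℕ) ^ r < 8 ^ r := Nat.pow_lt_pow_left (by norm_num) (by omega)
    omega
  have h6 : (16 : ℕ) ^ r = 8 ^ r * 2 ^ r := by
    rw [← mul_pow]
    norm_num
  rw [h6]
  calc 8 ^ r * r * t ^ s + (2 ^ r + 1) * t
      ≤ 8 ^ r * r * t ^ s + 8 ^ r * t ^ s := Nat.add_le_add_left (Nat.mul_le_mul h4 h1) _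
    _ = 8 ^ r * (r + 1) * t ^ s := by ring
    _ ≤ 8 ^ r * 2 ^ r * t ^ s := Nat.mul_le_mul_right _ (Nat.mul_le_mul_left _ h3)

theorem num4 {r t s : ℕ} (hr : 4 ≤ r) (ht : 1 ≤ t) (hs : s = (r + 1) / 2) :
    16 ^ r * t ^ s + 3 * 4 ^ r * (16 ^ r * t ^ s) ^ 2 ≤ (1024 * t) ^ (r + 1) := by
  set T := 16 ^ r * t ^ s with hT
  have hT1 : 1 ≤ T := by
    rw [hT]
    exact Nat.one_le_iff_ne_zero.mpr (by positivity)
  have hTT : T ≤ T ^ 2 := Nat.le_self_pow (by norm_num) T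
  have h4 : 1 ≤ 4 ^ r := Nat.one_le_pow _ _ (by norm_num)
  have hT2 : T ^ 2 = 256 ^ r * t ^ (s * 2) := by
    rw [hT, mul_pow, ← pow_mul, ← pow_mul, mul_comm r 2, pow_mul]
    norm_num
  have h5 : t ^ (s * 2) ≤ t ^ (r + 1) := Nat.pow_le_pow_right ht (by omega)
  have e1 : (1024 : ℕ) ^ r = 4 ^ r * 256 ^ r := by
    rw [← mul_pow]
    norm_num
  have e2 : (1024 * t) ^ (r + 1) = 1024 * (4 ^ r * 256 ^ r) * t ^ (r + 1) := by
    rw [← e1, mul_pow, pow_succ (1024 : ℕ) r, mul_comm (1024 ^ r) 1024]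
  rw [e2]
  calc T + 3 * 4 ^ r * T ^ 2 ≤ 4 ^ r * T ^ 2 + 3 * 4 ^ r * T ^ 2 := by
        apply Nat.add_le_add_right
        calc T ≤ T ^ 2 := hTT
          _ = 1 * T ^ 2 := (one_mul _).symm
          _ ≤ 4 ^ r * T ^ 2 := Nat.mul_le_mul_right _ h4
    _ = 4 * (4 ^ r * 256 ^ r) * t ^ (s * 2) := by rw [hT2]; ring
    _ ≤ 1024 * (4 ^ r * 256 ^ r) * t ^ (r + 1) := by
        apply Nat.mul_le_mul _ h5
        exact Nat.mul_le_mul_right _ (by norm_num)

/-- The large hyperplane case. -/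
def Big : Prop :=
  ∀ (L : Type) [Lattice L] [BoundedOrder L] [Fintype L] [IsUpperModularLattice L],
    (∀ x : L, ∃ s : Finset L, (∀ a ∈ s, IsAtom a) ∧ s.sup id = x) → 4 ≤ rk (⊤ : L) →
    ∀ t : ℕ, 1 ≤ t → (∀ x : L, rk x + 2 ≤ rk (⊤ : L) → {a : L | IsAtom a ∧ a ≤ x}.ncard ≤ t) →
      ∀ Q : L, IsCoatom Q →
        (∀ H : L, IsCoatom H →
          {a : L | IsAtom a ∧ a ≤ H}.ncard ≤ {a : L | IsAtom a ∧ a ≤ Q}.ncard) →
        8 ^ rk (⊤ : L) * rk (⊤ : L) * t ^ ((rk (⊤ : L) + 1) / 2) + (2 ^ rk (⊤ : L) + 1) * t ≤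
          {a : L | IsAtom a ∧ a ≤ Q}.ncard → HasPack (⊥ : L)

section

variable {L : Type} [Lattice L] [BoundedOrder L] [Fintype L] [IsUpperModularLattice L]

open Classical in
theorem ncard_below (x : L) :
    (univ.filter (fun j : {u : L // (⊥ : L) ⋖ u} => j.1 ≤ x)).card =
      {a : L | IsAtom a ∧ a ≤ x}.ncard := by
  rw [← Finset.card_map (Function.Embedding.subtype _), ← Set.ncard_coe_finset]
  congr 1
  ext a
  rw [Finset.mem_coe, Finset.mem_map]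
  constructor
  · rintro ⟨j, hj, rfl⟩
    exact ⟨bot_covBy_iff.mp j.2, (Finset.mem_filter.mp hj).2⟩
  · rintro ⟨h1, h2⟩
    exact ⟨⟨a, bot_covBy_iff.mpr h1⟩, Finset.mem_filter.mpr ⟨Finset.mem_univ _, h2⟩, rfl⟩

open Classical in
theorem ncard_atoms :
    Fintype.card {u : L // (⊥ : L) ⋖ u} = {a : L | IsAtom a}.ncard := by
  rw [← Nat.card_coe_set_eq, Nat.card_eq_fintype_card]
  apply Fintype.card_congr
  exact Equiv.subtypeEquivRight (fun a => bot_covBy_iff)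

/-- **Small colines**, over the bottom. -/
theorem hasPack_colines (big : Big)
    (hat : ∀ x : L, ∃ s : Finset L, (∀ a ∈ s, IsAtom a) ∧ s.sup id = x)
    (hr : 4 ≤ rk (⊤ : L)) (t : ℕ)
    (ht : ∀ x : L, rk x + 2 ≤ rk (⊤ : L) → {a : L | IsAtom a ∧ a ≤ x}.ncard ≤ t)
    (hn : (1024 * t) ^ (rk (⊤ : L) + 1) ≤ {a : L | IsAtom a}.ncard) : HasPack (⊥ : L) := by
  classical
  have hrb : rk (⊥ : L) = 0 := rk_bot
  have hbt : (⊥ : L) ≠ ⊤ := by
    intro h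
    rw [← h, hrb] at hr
    omega
  have hco : ∀ x : L, x ≠ ⊤ → ∃ H : L, IsCoatom H ∧ x ≤ H := by
    intro x hx
    rcases IsCoatomic.eq_top_or_exists_le_coatom x with h1 | h1
    · exact absurd h1 hx
    · exact h1
  have ht1 : 1 ≤ t := by
    obtain ⟨a, ha, -⟩ := exists_atom hat (x := (⊥ : L)) (y := ⊤)
      (fun h => hbt (le_bot_iff.mp h).symm)
    have h1 : rk a = 1 := by
      have := rk_covBy ha.bot_covBy
      omega
    refine le_trans ?_ (ht a (by omega))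
    rw [Nat.one_le_iff_ne_zero, ← Nat.pos_iff_ne_zero, Set.ncard_pos (Set.toFinite _)]
    exact ⟨a, ha, le_rfl⟩
  obtain ⟨Q, hQ, hmax⟩ : ∃ Q : L, IsCoatom Q ∧ ∀ H : L, IsCoatom H →
      {a : L | IsAtom a ∧ a ≤ H}.ncard ≤ {a : L | IsAtom a ∧ a ≤ Q}.ncard := by
    obtain ⟨H, hH, -⟩ := hco ⊥ hbt
    obtain ⟨Q, hQ, hmax⟩ := Finset.exists_max_image (univ.filter (fun H : L => IsCoatom H))
      (fun H => {a : L | IsAtom a ∧ a ≤ H}.ncard)
      ⟨H, Finset.mem_filter.mpr ⟨Finset.mem_univ _, hH⟩⟩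
    exact ⟨Q, (Finset.mem_filter.mp hQ).2, fun H hH =>
      hmax H (Finset.mem_filter.mpr ⟨Finset.mem_univ _, hH⟩)⟩
  obtain ⟨s, hs⟩ : ∃ s, s = (rk (⊤ : L) + 1) / 2 := ⟨_, rfl⟩
  have hn3 := num3 hr ht1 hs
  have hn4 := num4 hr ht1 hs
  rw [hs] at hn3
  by_cases hbig : 16 ^ rk (⊤ : L) * t ^ s ≤ {a : L | IsAtom a ∧ a ≤ Q}.ncard
  · rw [hs] at hbig
    exact big L hat hr t ht1 ht Q hQ hmax (hn3.trans hbig)
  · apply hasPack_coatoms hat (R := rk (⊤ : L)) (by rw [hrb, zero_add]) hr t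
      (16 ^ rk (⊤ : L) * t ^ s)
    · intro x _ hx
      rw [ncard_below]
      exact ht x hx
    · intro x _ hx
      obtain ⟨H, hH, hxH⟩ := hco x hx
      rw [ncard_below]
      have h1 : {a : L | IsAtom a ∧ a ≤ x}.ncard ≤ {a : L | IsAtom a ∧ a ≤ H}.ncard :=
        Set.ncard_le_ncard (fun a ha => ⟨ha.1, ha.2.trans hxH⟩) (Set.toFinite _)
      have h2 := hmax H hH
      omega
    · rw [← hs]
      exact Nat.le_mul_of_pos_left _ (by positivity)
    · rw [ncard_atoms]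
      exact hn4.trans hn

/-- **Small colines**, over any element. -/
theorem hasPack_colinesF (big : Big)
    (hat : ∀ x : L, ∃ s : Finset L, (∀ a ∈ s, IsAtom a) ∧ s.sup id = x) {f : L} {R : ℕ}
    (hR : rk (⊤ : L) = rk f + R) (hr : 4 ≤ R) (t : ℕ)
    (ht : ∀ x : L, f ≤ x → rk x + 2 ≤ rk (⊤ : L) → {u : L | f ⋖ u ∧ u ≤ x}.ncard ≤ t)
    (hn : (1024 * t) ^ (R + 1) ≤ {u : L | f ⋖ u}.ncard) : HasPack f := by
  classical
  have hum := Pool.Agent.Helper50.TW.ici_um f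
  have hrk : ∀ z : Set.Ici f, rk z + rk f = rk (z : L) := by
    intro z
    have h1 := Pool.Agent.Helper28.TW.height_Ici (L := L) (e := f) z
    rw [← coe_rk (L := Set.Ici f)] at h1
    exact_mod_cast h1
  have hatom : ∀ z : Set.Ici f, IsAtom z ↔ f ⋖ (z : L) := by
    intro z
    rw [← bot_covBy_iff, Pool.Agent.Helper50.TW.ici_cov]
    rfl
  have hrt : rk (⊤ : Set.Ici f) = R := by
    have h1 := hrk ⊤
    have h2 : ((⊤ : Set.Ici f) : L) = ⊤ := rfl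
    rw [h2] at h1
    omega
  have hatI := Pool.Agent.Helper50.TW.ici_atomistic hat f
  have hpack : HasPack (⊥ : Set.Ici f) := by
    refine hasPack_colines big hatI (by omega) t ?_ ?_
    · intro x hx
      have h1 := hrk x
      refine le_trans ?_ (ht (x : L) x.2 (by omega))
      rw [← Set.ncard_image_of_injective {a : Set.Ici f | IsAtom a ∧ a ≤ x} Subtype.val_injective]
      apply Set.ncard_le_ncard _ (Set.toFinite _)
      rintro _ ⟨a, ⟨ha, hax⟩, rfl⟩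
      exact ⟨(hatom a).mp ha, hax⟩
    · rw [hrt]
      refine hn.trans ?_
      rw [← Set.ncard_image_of_injective {a : Set.Ici f | IsAtom a} Subtype.val_injective]
      apply Set.ncard_le_ncard _ (Set.toFinite _)
      intro u hu
      exact ⟨⟨u, hu.le⟩, (hatom _).mpr hu, rfl⟩
  apply Pool.Agent.Helper28.TW.hasPack_of_Ici hat f
  exact hpack.to_packing

end

end Pool.Agent.Helper50.SC
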